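import Pool.Agent.H23.PL.Targets

/-!
The polynomials `Φ_m(-z)` (row CYP).
-/

set_option autoImplicit false

open Finset Polynomial Pool.Agent.H23.PL

namespace Pool.Agent.H97.PL

theorem cyc_aeval (m : ℕ) (z : ℂ) : aeval z (PP m) = (cyclotomic m ℂ).eval (-z) := by
  unfold PP
  rw [aeval_comp, map_neg, aeval_X, ← eval_map_algebraMap, map_cyclotomic]

theorem cyc_root {m : ℕ} (hm : 3 ≤ m) {z : ℂ} (h : (cyclotomic m ℂ).eval z = 0) : ‖z‖ = 1 := by
  have : NeZero (m : ℂ) := ⟨by exact_mod_cast (by omega : m ≠ 0)⟩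
  have h1 : IsPrimitiveRoot z m := isRoot_cyclotomic_iff.1 h
  exact h1.norm'_eq_one (by omega)

theorem PP_coeff (m k : ℕ) : (PP m).coeff k = (cyclotomic m ℤ).coeff k * (-1) ^ k := by
  unfold PP
  have h1 : (-X : ℤ[X]) = C (-1) * X := by rw [C_neg, C_1]; ring
  rw [h1, comp_C_mul_X_coeff]

theorem PP_coeff_le {m : ℕ} (hm : 3 ≤ m) (k : ℕ) :
    |(PP m).coeff k| ≤ (m.totient.choose k : ℤ) := by
  have h1 : |(PP m).coeff k| = |(cyclotomic m ℤ).coeff k| := by
    rw [PP_coeff, abs_mul, abs_pow, abs_neg, abs_one, one_pow, mul_one]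
  rw [h1]
  rcases lt_or_ge m.totient k with h2 | h2
  · have h3 : (cyclotomic m ℤ).coeff k = 0 := by
      apply coeff_eq_zero_of_natDegree_lt
      rw [natDegree_cyclotomic]
      exact h2
    rw [h3, abs_zero]
    positivity
  · have h3 := coeff_le_of_roots_le (F := ℂ) (K := ℂ) (p := cyclotomic m ℂ)
      (f := RingHom.id ℂ) (B := 1) k (cyclotomic.monic m ℂ) (IsAlgClosed.splits _) (by
        intro z hz
        have h4 := isRoot_of_mem_roots hz
        rw [Polynomial.map_id] at h4
        exact (cyc_root hm h4).le)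
    rw [Polynomial.map_id, natDegree_cyclotomic, one_pow, one_mul] at h3
    have h5 : (cyclotomic m ℂ).coeff k = (((cyclotomic m ℤ).coeff k : ℤ) : ℂ) := by
      rw [← map_cyclotomic m (Int.castRingHom ℂ), coeff_map]
      rfl
    rw [h5, Complex.norm_intCast] at h3
    exact_mod_cast h3

theorem pf_CYP : T_CYP := by
  intro m hm
  have : NeZero (m : ℂ) := ⟨by exact_mod_cast (by omega : m ≠ 0)⟩
  refine ⟨?_, Nat.totient_even (by omega), ?_, PP_coeff_le hm, ?_, ?_⟩
  · unfold PP
    rw [natDegree_comp, natDegree_neg, natDegree_X, natDegree_cyclotomic, mul_one]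
  · rw [PP_coeff, pow_zero, mul_one]
    exact cyclotomic_coeff_zero ℤ (by omega)
  · intro z hz
    rw [cyc_aeval] at hz
    have := cyc_root hm hz
    rwa [norm_neg] at this
  · have h1 := Complex.isPrimitiveRoot_exp m (by omega)
    set ζ := Complex.exp (2 * Real.pi * Complex.I / m) with hζ
    have h2 : (cyclotomic m ℂ).eval ζ = 0 := isRoot_cyclotomic_iff.2 h1
    refine ⟨-ζ, ?_, ?_⟩
    · rw [cyc_aeval, neg_neg]
      exact h2
    · have h3 : derivative (PP m) = -((derivative (cyclotomic m ℤ)).comp (-X)) := by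
        unfold PP
        rw [derivative_comp, derivative_neg, derivative_X]
        ring
      rw [h3, map_neg, aeval_comp, map_neg, aeval_X, neg_neg, ← eval_map_algebraMap,
        ← derivative_map, map_cyclotomic]
      have h4 := (separable_cyclotomic m ℂ).eval₂_derivative_ne_zero (RingHom.id ℂ) (x := ζ)
        (by rw [eval₂_id]; exact h2)
      rw [eval₂_id] at h4
      exact neg_ne_zero.2 h4

end Pool.Agent.H97.PL
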