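import Pool.Agent.H23.PL.Targets

/-!
Independence of the parts of an integer (row IND).
-/

set_option autoImplicit false

open Finset Polynomial Pool.Agent.H23.PL

namespace Pool.Agent.H97.PL

theorem pt_Sm (B : Finset ℕ) (hB : ∀ p ∈ B, p.Prime) (m : ℕ) : Sm B (pt B m) := by
  unfold pt
  refine ⟨Finset.prod_ne_zero_iff.2 fun p hp => pow_ne_zero _ (hB p hp).ne_zero, ?_⟩
  intro p hp h
  obtain ⟨q, hq, h1⟩ := (hp.prime.dvd_finset_prod_iff _).1 h
  have h2 : p ∣ q := hp.dvd_of_dvd_pow h1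
  have h3 : p = q := (Nat.prime_dvd_prime_iff_eq hp (hB q hq)).1 h2
  rw [h3]
  exact hq

theorem pt_full {x m : ℕ} (h1 : 1 ≤ m) (h2 : m ≤ x) : pt (PR 0 x) m = m := by
  have h3 : ∏ p ∈ m.factorization.support, p ^ m.factorization p = m := by
    have := Nat.prod_factorization_pow_eq_self (n := m) (by omega)
    rw [Finsupp.prod] at this
    exact this
  refine Eq.trans ?_ h3
  unfold pt
  symm
  apply Finset.prod_subset
  · intro p hp
    rw [Nat.support_factorization, Nat.mem_primeFactors] at hp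
    unfold PR
    rw [Finset.mem_filter, Finset.mem_Ioc, Nat.floor_zero, Nat.floor_natCast]
    exact ⟨⟨hp.1.pos, le_trans (Nat.le_of_dvd (by omega) hp.2.1) h2⟩, hp.1⟩
  · intro p _ hp
    rw [Finsupp.notMem_support_iff] at hp
    rw [hp, pow_zero]

theorem pt_split {J x : ℕ} (B : Fin J → Finset ℕ) (hB : ∀ j, ∀ p ∈ B j, p.Prime ∧ p ≤ x)
    (hd : ∀ i j, i ≠ j → Disjoint (B i) (B j)) {m : ℕ} (h1 : 1 ≤ m) (h2 : m ≤ x) :
    (∏ j, pt (B j) m) * pt (PR 0 x \ univ.biUnion B) m = m := by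
  have h3 : ∏ j, pt (B j) m = pt (univ.biUnion B) m := by
    unfold pt
    rw [Finset.prod_biUnion]
    intro i _ j _ hij
    exact hd i j hij
  have h4 : univ.biUnion B ⊆ PR 0 x := by
    intro p hp
    rw [Finset.mem_biUnion] at hp
    obtain ⟨j, _, hj⟩ := hp
    unfold PR
    rw [Finset.mem_filter, Finset.mem_Ioc, Nat.floor_zero, Nat.floor_natCast]
    exact ⟨⟨(hB j p hj).1.pos, (hB j p hj).2⟩, (hB j p hj).1⟩
  rw [h3, mul_comm]
  conv_rhs => rw [← pt_full h1 h2]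
  unfold pt
  exact Finset.prod_sdiff h4

theorem sum_aux {J : ℕ} (F : Finset ℕ) (g : Fin J → ℕ → ℕ) (r : ℕ → ℕ)
    (h : ∀ m ∈ F, (∏ j, g j m) * r m = m) :
    ∑ m ∈ F, 1 / (m : ℝ) ≤
      (∏ j, ∑ a ∈ F.image (g j), 1 / (a : ℝ)) * ∑ a ∈ F.image r, 1 / (a : ℝ) := by
  set Φ : ℕ → (Fin J → ℕ) × ℕ := fun m => (fun j => g j m, r m) with hΦ
  set w : (Fin J → ℕ) × ℕ → ℝ := fun q => (∏ j, 1 / (q.1 j : ℝ)) * (1 / (q.2 : ℝ)) with hw
  have h1 : ∀ m ∈ F, 1 / (m : ℝ) = w (Φ m) := by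
    intro m hm
    have h2 : (m : ℝ) = (∏ j, (g j m : ℝ)) * (r m : ℝ) := by
      conv_lhs => rw [← h m hm]
      push_cast
      rfl
    rw [hw, hΦ]
    simp only [one_div]
    rw [Finset.prod_inv_distrib, ← mul_inv, ← h2]
  have h2 : Set.InjOn Φ F := by
    intro m hm m' hm' hmm
    rw [hΦ] at hmm
    simp only [Prod.mk.injEq] at hmm
    rw [← h m hm, ← h m' hm', hmm.2]
    congr 1
    exact Finset.prod_congr rfl fun j _ => congrFun hmm.1 j
  have h3 : F.image Φ ⊆ (Fintype.piFinset fun j => F.image (g j)) ×ˢ F.image r := by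
    intro q hq
    rw [Finset.mem_image] at hq
    obtain ⟨m, hm, rfl⟩ := hq
    rw [Finset.mem_product, Fintype.mem_piFinset]
    exact ⟨fun j => Finset.mem_image_of_mem _ hm, Finset.mem_image_of_mem _ hm⟩
  calc ∑ m ∈ F, 1 / (m : ℝ) = ∑ m ∈ F, w (Φ m) := Finset.sum_congr rfl h1
    _ = ∑ q ∈ F.image Φ, w q := (Finset.sum_image h2).symm
    _ ≤ ∑ q ∈ (Fintype.piFinset fun j => F.image (g j)) ×ˢ F.image r, w q := by
      apply Finset.sum_le_sum_of_subset_of_nonneg h3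
      intro q _ _
      rw [hw]
      positivity
    _ = (∏ j, ∑ a ∈ F.image (g j), 1 / (a : ℝ)) * ∑ a ∈ F.image r, 1 / (a : ℝ) := by
      rw [Finset.prod_univ_sum, Finset.sum_mul_sum, Finset.sum_product]

theorem pf_IND (hZBS : T_ZBS) : T_IND := by
  classical
  intro J x B A s hB hd hs
  set F := (Icc 1 x).filter (fun m => ∀ j, pt (B j) m ∈ A j) with hF
  have h1 : ∀ m ∈ F, (∏ j, pt (B j) m) * pt (PR 0 x \ univ.biUnion B) m = m := by
    intro m hm
    rw [hF, Finset.mem_filter, Finset.mem_Icc] at hm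
    exact pt_split B hB hd hm.1.1 hm.1.2
  have h2 := sum_aux F (fun j => pt (B j)) (pt (PR 0 x \ univ.biUnion B)) h1
  have h3 : ∀ j, ∑ a ∈ F.image (pt (B j)), 1 / (a : ℝ) ≤ s j := by
    intro j
    apply hs
    intro a ha
    rw [Finset.mem_image] at ha
    obtain ⟨m, hm, rfl⟩ := ha
    rw [hF, Finset.mem_filter] at hm
    exact ⟨pt_Sm _ (fun p hp => (hB j p hp).1) m, hm.2 j⟩
  have h4 : ∑ a ∈ F.image (pt (PR 0 x \ univ.biUnion B)), 1 / (a : ℝ) ≤
      ZB (PR 0 x \ univ.biUnion B) := by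
    have h5 : ∀ p ∈ PR 0 x \ univ.biUnion B, p.Prime := by
      intro p hp
      rw [Finset.mem_sdiff] at hp
      unfold PR at hp
      exact (Finset.mem_filter.1 hp.1).2
    apply hZBS _ _ h5
    intro a ha
    rw [Finset.mem_image] at ha
    obtain ⟨m, _, rfl⟩ := ha
    exact pt_Sm _ h5 m
  refine le_trans h2 (mul_le_mul (Finset.prod_le_prod ?_ fun j _ => h3 j) h4 ?_ ?_)
  · intro j _
    exact Finset.sum_nonneg fun a _ => by positivity
  · exact Finset.sum_nonneg fun a _ => by positivity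
  · exact Finset.prod_nonneg fun j _ =>
      le_trans (Finset.sum_nonneg fun a _ => by positivity) (h3 j)

end Pool.Agent.H97.PL
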